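import Pool.Agent.W295.PR.Stm

set_option autoImplicit false

open Topology

namespace Pool.Agent.W249.PR.Step

open Pool.Agent.W295.PR

variable {Y C P : Type} [TopologicalSpace Y] [CommGroup C] [TopologicalSpace C] [Group P]
  [TopologicalSpace P]

/-- nonempty closed sets that are invariant under `T`, `S` and `L0` -/
def Fam (E : Dyn Y C P) (L0 : Subgroup C) (F : Set Y) : Set (Set Y) :=
  {M | M ⊆ F ∧ IsClosed M ∧ M.Nonempty ∧ E.InvTS M ∧ ∀ c ∈ L0, ∀ y ∈ M, E.ac c y ∈ M}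

theorem ac_inv (E : Dyn Y C P) (c : C) (y : Y) : E.ac c⁻¹ (E.ac c y) = y := by
  rw [← E.ac_mul, inv_mul_cancel, E.ac_one]

theorem ac_inv' (E : Dyn Y C P) (c : C) (y : Y) : E.ac c (E.ac c⁻¹ y) = y := by
  rw [← E.ac_mul, mul_inv_cancel, E.ac_one]

theorem Tsymm_ac (E : Dyn Y C P) (c : C) (y : Y) : E.T.symm (E.ac c y) = E.ac c (E.T.symm y) := by
  rw [Homeomorph.symm_apply_eq, E.T_ac, Homeomorph.apply_symm_apply]

theorem Ssymm_ac (E : Dyn Y C P) (c : C) (y : Y) :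
    E.S.symm (E.ac c y) = E.ac (E.θ' c) (E.S.symm y) := by
  rw [Homeomorph.symm_apply_eq, E.S_ac, Homeomorph.apply_symm_apply, E.θ_θ']

theorem ac_cont1 (E : Dyn Y C P) (c : C) : Continuous fun y => E.ac c y :=
  E.ac_cont.comp (Continuous.prodMk_right c)

theorem ac_cont2 (E : Dyn Y C P) (y : Y) : Continuous fun c => E.ac c y :=
  E.ac_cont.comp (Continuous.prodMk_left y)

/-- existence of minimal sets -/
theorem exists_min [CompactSpace Y] (E : Dyn Y C P) (L0 : Subgroup C) (F : Set Y)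
    (hF : F ∈ Fam E L0 F) : ∃ M, M ⊆ F ∧ Minimal (· ∈ Fam E L0 F) M := by
  refine zorn_superset_nonempty (Fam E L0 F) ?_ F hF
  intro c hc hch hne
  refine ⟨⋂₀ c, ?_, fun s hs => Set.sInter_subset_of_mem hs⟩
  have hne' : Nonempty c := hne.to_subtype
  refine ⟨?_, ?_, ?_, ?_, ?_⟩
  · obtain ⟨s, hs⟩ := hne
    exact (Set.sInter_subset_of_mem hs).trans (hc hs).1
  · exact isClosed_sInter (fun s hs => (hc hs).2.1)
  · apply IsCompact.nonempty_sInter_of_directed_nonempty_isCompact_isClosed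
    · intro a ha b hb
      rcases hch.total ha hb with h | h
      · exact ⟨a, ha, subset_rfl, h⟩
      · exact ⟨b, hb, h, subset_rfl⟩
    · exact fun s hs => (hc hs).2.2.1
    · exact fun s hs => (hc hs).2.1.isCompact
    · exact fun s hs => (hc hs).2.1
  · intro y hy
    refine ⟨?_, ?_, ?_, ?_⟩
    · exact fun s hs => ((hc hs).2.2.2.1 y (hy s hs)).1
    · exact fun s hs => ((hc hs).2.2.2.1 y (hy s hs)).2.1
    · exact fun s hs => ((hc hs).2.2.2.1 y (hy s hs)).2.2.1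
    · exact fun s hs => ((hc hs).2.2.2.1 y (hy s hs)).2.2.2
  · intro d hd y hy s hs
    exact (hc hs).2.2.2.2 d hd y (hy s hs)

/-- translates of an invariant set by `c` with `θ c c⁻¹ ∈ L0` are invariant -/
theorem tr_inv (E : Dyn Y C P) (L0 : Subgroup C) {M : Set Y} (hM : E.InvTS M)
    (hL : ∀ c ∈ L0, ∀ y ∈ M, E.ac c y ∈ M) {c : C} (h1 : E.θ c * c⁻¹ ∈ L0)
    (h2 : E.θ' c * c⁻¹ ∈ L0) : E.InvTS (E.ac c '' M) := by
  rintro _ ⟨m, hm, rfl⟩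
  obtain ⟨a1, a2, a3, a4⟩ := hM m hm
  refine ⟨?_, ?_, ?_, ?_⟩
  · rw [E.T_ac]; exact ⟨_, a1, rfl⟩
  · rw [Tsymm_ac]; exact ⟨_, a2, rfl⟩
  · rw [E.S_ac]
    refine ⟨E.ac (E.θ c * c⁻¹) (E.S m), hL _ h1 _ a3, ?_⟩
    rw [← E.ac_mul]
    congr 1
    rw [mul_comm, inv_mul_cancel_right]
  · rw [Ssymm_ac]
    refine ⟨E.ac (E.θ' c * c⁻¹) (E.S.symm m), hL _ h2 _ a4, ?_⟩
    rw [← E.ac_mul]
    congr 1
    rw [mul_comm, inv_mul_cancel_right]

theorem tr_L0 (E : Dyn Y C P) (L0 : Subgroup C) {M : Set Y}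
    (hL : ∀ c ∈ L0, ∀ y ∈ M, E.ac c y ∈ M) (c : C) :
    ∀ d ∈ L0, ∀ y ∈ E.ac c '' M, E.ac d y ∈ E.ac c '' M := by
  rintro d hd _ ⟨m, hm, rfl⟩
  refine ⟨E.ac d m, hL d hd m hm, ?_⟩
  rw [← E.ac_mul, ← E.ac_mul, mul_comm]

/-- translates of the minimal set that meet it contain it -/
theorem meet [CompactSpace Y] [T2Space Y] (E : Dyn Y C P) (L0 : Subgroup C) {F M : Set Y}
    (hM : Minimal (· ∈ Fam E L0 F) M) {c : C} (h1 : E.θ c * c⁻¹ ∈ L0)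
    (h2 : E.θ' c * c⁻¹ ∈ L0) {m : Y} (hm : m ∈ M) (hcm : E.ac c m ∈ M) : M ⊆ E.ac c '' M := by
  obtain ⟨⟨b1, b2, b3, b4, b5⟩, hmin⟩ := hM
  have hcl : IsClosed (E.ac c '' M) := (b2.isCompact.image (ac_cont1 E c)).isClosed
  have hti := tr_inv E L0 b4 b5 h1 h2
  have htl := tr_L0 E L0 b5 c
  have hmem : M ∩ E.ac c '' M ∈ Fam E L0 F := by
    refine ⟨Set.inter_subset_left.trans b1, b2.inter hcl, ⟨E.ac c m, hcm, ⟨m, hm, rfl⟩⟩, ?_, ?_⟩
    · intro y hy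
      obtain ⟨u1, u2, u3, u4⟩ := b4 y hy.1
      obtain ⟨v1, v2, v3, v4⟩ := hti y hy.2
      exact ⟨⟨u1, v1⟩, ⟨u2, v2⟩, ⟨u3, v3⟩, ⟨u4, v4⟩⟩
    · intro d hd y hy
      exact ⟨b5 d hd y hy.1, htl d hd y hy.2⟩
  exact (hmin hmem Set.inter_subset_left).trans Set.inter_subset_right

/-- the stabiliser of the minimal set -/
def Lst (E : Dyn Y C P) (L1 : Subgroup C) (M : Set Y) : Subgroup C where
  carrier := {c | c ∈ L1 ∧ (∀ m ∈ M, E.ac c m ∈ M) ∧ (∀ m ∈ M, E.ac c⁻¹ m ∈ M)}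
  one_mem' := by
    refine ⟨L1.one_mem, ?_, ?_⟩
    · intro m hm; rwa [E.ac_one]
    · intro m hm; rwa [inv_one, E.ac_one]
  mul_mem' := by
    rintro a b ⟨a1, a2, a3⟩ ⟨b1, b2, b3⟩
    refine ⟨L1.mul_mem a1 b1, ?_, ?_⟩
    · intro m hm
      rw [E.ac_mul]
      exact a2 _ (b2 m hm)
    · intro m hm
      rw [mul_inv, E.ac_mul]
      exact a3 _ (b3 m hm)
  inv_mem' := by
    rintro a ⟨a1, a2, a3⟩
    refine ⟨L1.inv_mem a1, a3, ?_⟩
    intro m hm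
    rw [inv_inv]
    exact a2 m hm

theorem lst_closed (E : Dyn Y C P) [IsTopologicalGroup C] (L1 : Subgroup C)
    (hL1 : IsClosed (L1 : Set C)) {M : Set Y} (hM : IsClosed M) :
    IsClosed (Lst E L1 M : Set C) := by
  have h : (Lst E L1 M : Set C) = (L1 : Set C) ∩ ((⋂ m ∈ M, {c | E.ac c m ∈ M}) ∩
      (⋂ m ∈ M, {c | E.ac c⁻¹ m ∈ M})) := by
    ext c
    constructor
    · rintro ⟨h1, h2, h3⟩
      exact ⟨h1, by simpa using h2, by simpa using h3⟩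
    · rintro ⟨h1, h2, h3⟩
      exact ⟨h1, by simpa using h2, by simpa using h3⟩
  rw [h]
  refine hL1.inter (IsClosed.inter ?_ ?_)
  · refine isClosed_biInter (fun m _ => ?_)
    exact hM.preimage (ac_cont2 E m)
  · refine isClosed_biInter (fun m _ => ?_)
    exact hM.preimage ((ac_cont2 E m).comp continuous_inv)

theorem main (hch : S_CH) : S_Step := by
  intro Y C P _ _ _ _ _ _ _ _ _ _ E hOm L0 L1 hL0 hL1 hle hKK hθ hθ' hMM hObst F hFO hFc hFn hFi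
    hFL
  have hFF : F ∈ Fam E L0 F := ⟨subset_rfl, hFc, hFn, hFi, hFL⟩
  obtain ⟨M, hMF, hMmin⟩ := exists_min E L0 F hFF
  obtain ⟨b1, b2, b3, b4, b5⟩ := hMmin.prop
  have hMO : M ⊆ E.Om := hMF.trans hFO
  -- the union of the translates
  have hθL1 : ∀ c ∈ L1, E.θ c ∈ L1 := by
    intro c hc
    have := L1.mul_mem (hle (hθ c hc)) hc
    rwa [inv_mul_cancel_right] at this
  have hθL1' : ∀ c ∈ L1, E.θ' c ∈ L1 := by
    intro c hc
    have := L1.mul_mem (hle (hθ' c hc)) hc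
    rwa [inv_mul_cancel_right] at this
  have hcomp : ∀ Z : Set C, IsClosed Z → IsClosed ((fun p : C × Y => E.ac p.1 p.2) '' (Z ×ˢ M)) := by
    intro Z hZ
    exact ((hZ.isCompact.prod b2.isCompact).image E.ac_cont).isClosed
  have hU : (fun p : C × Y => E.ac p.1 p.2) '' ((L1 : Set C) ×ˢ M) = E.Om := by
    apply hMM
    · rintro _ ⟨⟨c, m⟩, ⟨hc, hm⟩, rfl⟩
      exact (hKK hc m).mp (hMO hm)
    · exact hcomp _ hL1
    · obtain ⟨m, hm⟩ := b3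
      exact ⟨_, ⟨(1, m), ⟨L1.one_mem, hm⟩, rfl⟩⟩
    · rintro _ ⟨⟨c, m⟩, ⟨hc, hm⟩, rfl⟩
      have hc' : c ∈ L1 := hc
      obtain ⟨a1, a2, a3, a4⟩ := b4 m hm
      refine ⟨?_, ?_, ?_, ?_⟩
      · exact ⟨(c, E.T m), ⟨hc, a1⟩, (E.T_ac c m).symm⟩
      · exact ⟨(c, E.T.symm m), ⟨hc, a2⟩, (Tsymm_ac E c m).symm⟩
      · exact ⟨(E.θ c, E.S m), ⟨hθL1 c hc', a3⟩, (E.S_ac c m).symm⟩
      · exact ⟨(E.θ' c, E.S.symm m), ⟨hθL1' c hc', a4⟩, (Ssymm_ac E c m).symm⟩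
    · rintro d hd _ ⟨⟨c, m⟩, ⟨hc, hm⟩, rfl⟩
      have hc' : c ∈ L1 := hc
      exact ⟨(d * c, m), ⟨L1.mul_mem hd hc', hm⟩, E.ac_mul d c m⟩
  -- the stabiliser
  have hkey : ∀ c ∈ L1, ∀ m ∈ M, E.ac c m ∈ M → c ∈ Lst E L1 M := by
    intro c hc m hm hcm
    have e1 := meet E L0 hMmin (hθ c hc) (hθ' c hc) hm hcm
    have hci := L1.inv_mem hc
    have e2 := meet E L0 hMmin (hθ _ hci) (hθ' _ hci) hcm (by rw [ac_inv]; exact hm)
    refine ⟨hc, ?_, ?_⟩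
    · intro m' hm'
      obtain ⟨m'', hm'', h⟩ := e2 hm'
      rw [← h, ac_inv']
      exact hm''
    · intro m' hm'
      obtain ⟨m'', hm'', h⟩ := e1 hm'
      rw [← h, ac_inv]
      exact hm''
  have hL0st : L0 ≤ Lst E L1 M := by
    intro c hc
    exact ⟨hle hc, b5 c hc, b5 _ (L0.inv_mem hc)⟩
  have hstL1 : Lst E L1 M ≤ L1 := fun c hc => hc.1
  by_cases hst : Lst E L1 M = L1
  · -- the minimal set is everything
    refine Set.Subset.antisymm hFO ?_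
    intro y hy
    rw [← hU] at hy
    obtain ⟨⟨c, m⟩, ⟨hc, hm⟩, rfl⟩ := hy
    have hc' : c ∈ L1 := hc
    rw [← hst] at hc'
    exact hMF (hc'.2.1 m hm)
  · exfalso
    obtain ⟨χ, hχc, hχm, hχ0, hχ1⟩ := hch C L1 (Lst E L1 M) hL1 (lst_closed E L1 hL1 b2) hstL1 hst
    have hrep : ∀ y ∈ E.Om, ∃ p : C × Y, p.1 ∈ L1 ∧ p.2 ∈ M ∧ E.ac p.1 p.2 = y := by
      intro y hy
      rw [← hU] at hy
      obtain ⟨⟨c, m⟩, ⟨hc, hm⟩, h⟩ := hy
      exact ⟨(c, m), hc, hm, h⟩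
    classical
    set φ : Y → Circle := fun y => if hy : y ∈ E.Om then χ (hrep y hy).choose.1 else 1 with hφ
    have hval : ∀ c ∈ L1, ∀ m ∈ M, φ (E.ac c m) = χ c := by
      intro c hc m hm
      have hy : E.ac c m ∈ E.Om := (hKK hc m).mp (hMO hm)
      simp only [hφ, dif_pos hy]
      obtain ⟨g1, g2, g3⟩ := (hrep _ hy).choose_spec
      set p := (hrep _ hy).choose
      have h1 : p.1⁻¹ * c ∈ Lst E L1 M := by
        apply hkey _ (L1.mul_mem (L1.inv_mem g1) hc) m hm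
        rw [E.ac_mul, ← g3, ac_inv]
        exact g2
      have h2 : c = p.1 * (p.1⁻¹ * c) := by rw [mul_inv_cancel_left]
      rw [h2, hχm _ g1 _ (hstL1 h1), hχ0 _ h1, mul_one]
    apply hObst χ φ
    refine ⟨hχm, hχ1, ?_, ?_, ?_⟩
    · rw [continuousOn_iff_isClosed]
      intro Z hZ
      refine ⟨(fun p : C × Y => E.ac p.1 p.2) '' (((L1 : Set C) ∩ χ ⁻¹' Z) ×ˢ M),
        hcomp _ (hχc.preimage_isClosed_of_isClosed hL1 hZ), ?_⟩
      ext y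
      constructor
      · rintro ⟨hyZ, hyO⟩
        refine ⟨?_, hyO⟩
        obtain ⟨p, g1, g2, g3⟩ := hrep y hyO
        refine ⟨p, ⟨⟨g1, ?_⟩, g2⟩, g3⟩
        show χ p.1 ∈ Z
        rw [← hval p.1 g1 p.2 g2, g3]
        exact hyZ
      · rintro ⟨⟨p, ⟨⟨g1, g4⟩, g2⟩, g3⟩, hyO⟩
        refine ⟨?_, hyO⟩
        show φ y ∈ Z
        rw [← g3]
        show φ (E.ac p.1 p.2) ∈ Z
        rw [hval p.1 g1 p.2 g2]
        exact g4
    · intro d hd y hy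
      obtain ⟨p, g1, g2, g3⟩ := hrep y hy
      rw [← g3, ← E.ac_mul, hval _ (L1.mul_mem hd g1) _ g2, hval _ g1 _ g2, hχm _ hd _ g1]
    · intro y hy
      obtain ⟨p, g1, g2, g3⟩ := hrep y hy
      obtain ⟨a1, a2, a3, a4⟩ := b4 _ g2
      rw [← g3]
      refine ⟨?_, ?_⟩
      · rw [E.T_ac, hval _ g1 _ a1, hval _ g1 _ g2]
      · rw [E.S_ac, hval _ (hθL1 _ g1) _ a3, hval _ g1 _ g2]
        have h1 : E.θ p.1 = E.θ p.1 * p.1⁻¹ * p.1 := by rw [inv_mul_cancel_right]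
        rw [h1, hχm _ (hle (hθ _ g1)) _ g1, hχ0 _ (hL0st (hθ _ g1)), one_mul]

end Pool.Agent.W249.PR.Step

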